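import Pool.Agent.Lib_MP_c83083_co.Final

/-!
# Alternating cycles as periodic sequences
-/

set_option autoImplicit false

namespace Pool.Agent.Lib_MP_c83083_ins

open Pool.Agent.Lib_MP_c83083_co

universe u

/-- alternating sequences for two graphs on `2 m` vertices -/
theorem seq0 (V : Type) [Fintype V] (R B : SimpleGraph V) (m : ℕ) (hm : 1 ≤ m)
    (hcard : Fintype.card V = 2 * m) (hR : ∀ v, m ≤ (R.neighborSet v).ncard)
    (hB : ∀ v, m ≤ (B.neighborSet v).ncard) :
    ∃ (σ : V → V) (y : ℤ → V), (∀ v, σ (σ v) = v) ∧ (∀ k, σ (y (2 * k)) = y (2 * k + 1)) ∧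
      (∀ t, y (t + 2 * m) = y t) ∧ (∀ s t, y s = y t → (2 * m : ℤ) ∣ s - t) ∧
      (∀ v, ∃ t, y t = v) ∧
      (∀ k, R.Adj (y (2 * k)) (y (2 * k + 1))) ∧ ∀ k, B.Adj (y (2 * k + 1)) (y (2 * k + 2)) := by
  obtain ⟨σ, hσ, hRσ, a, b, hs, hba⟩ := twoGraphs V R B m hm hcard
    (fun v => by rw [deg_eq_ncard]; exact hR v) (fun v => by rw [deg_eq_ncard]; exact hB v)
  obtain ⟨c, C, hC, -, -, hU⟩ := hs.toCyc hba
  have hcpos := hC.pos
  have hnd : (blk σ C 0 c).Nodup := by
    rw [hU]
    exact Finset.univ.nodup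
  have hcm : c = m := by
    have h1 : (blk σ C 0 c).card = 2 * m := by
      rw [hU, ← hcard]
      rfl
    unfold blk at h1
    rw [Multiset.card_sum] at h1
    have h2 : ∀ k ∈ Finset.Ico (0 : ℤ) c, Multiset.card ({C k, σ (C k)} : Multiset V) = 2 := fun k _ => rfl
    rw [Finset.sum_congr rfl h2, Finset.sum_const, Int.card_Ico] at h1
    simp only [sub_zero, Int.toNat_natCast, smul_eq_mul] at h1
    omega
  subst hcm
  let y : ℤ → V := fun t => if t % 2 = 0 then C (t / 2) else σ (C (t / 2))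
  have y0 : ∀ k, y (2 * k) = C k := by
    intro k
    simp only [y]
    rw [if_pos (by omega), show 2 * k / 2 = k by omega]
  have y1 : ∀ k, y (2 * k + 1) = σ (C k) := by
    intro k
    simp only [y]
    rw [if_neg (by omega), show (2 * k + 1) / 2 = k by omega]
  have y2 : ∀ k, y (2 * k + 2) = C (k + 1) := by
    intro k
    rw [show 2 * k + 2 = 2 * (k + 1) by ring, y0]
  have hne : ∀ v, v ≠ σ v := fun v h => (hRσ v).ne h
  refine ⟨σ, y, hσ, ?_, ?_, ?_, ?_, ?_, ?_⟩
  · intro k
    rw [y0, y1]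
  · intro t
    rcases Int.even_or_odd' t with ⟨k, rfl | rfl⟩
    · rw [show 2 * k + 2 * (c : ℤ) = 2 * (k + c) by ring, y0, y0, hC.per]
    · rw [show 2 * k + 1 + 2 * (c : ℤ) = 2 * (k + c) + 1 by ring, y1, y1, hC.per]
  · -- indices of dominoes agree modulo `c`
    have key : ∀ k l : ℤ, (C k = C l ∨ C k = σ (C l) ∨ σ (C k) = C l ∨ σ (C k) = σ (C l)) →
        (c : ℤ) ∣ k - l := by
      intro k l h
      by_contra hcon
      have hc0 : (0 : ℤ) < c := by exact_mod_cast hcpos
      have h1 := Int.emod_nonneg (k - l) (ne_of_gt hc0)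
      have h2 := Int.emod_lt_of_pos (k - l) hc0
      have h3 : (k - l) % (c : ℤ) ≠ 0 := fun h => hcon (Int.dvd_of_emod_eq_zero h)
      have h4 := Int.mul_ediv_add_emod (k - l) c
      have h5 : C k = C (l + (k - l) % (c : ℤ)) := by
        rw [← hC.per_mul (l + (k - l) % (c : ℤ)) ((k - l) / c)]
        congr 1
        linarith [mul_comm ((k - l) / (c : ℤ)) (c : ℤ)]
      have h6 := hC.ne hnd (k := l) (l := l + (k - l) % (c : ℤ)) (by omega) (by omega)
      rw [h5] at h
      rcases h with h | h | h | h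
      · exact h6.1 h.symm
      · exact h6.2.2.1 h.symm
      · exact h6.2.1 h.symm
      · exact h6.2.2.2 h.symm
    have hdc : ∀ k l : ℤ, (c : ℤ) ∣ k - l → C k = C l := by
      rintro k l ⟨q, hq⟩
      rw [← hC.per_mul l q]
      congr 1
      linarith [mul_comm q (c : ℤ)]
    intro s t hst
    rcases Int.even_or_odd' s with ⟨k, rfl | rfl⟩ <;> rcases Int.even_or_odd' t with ⟨l, rfl | rfl⟩
    · rw [y0, y0] at hst
      obtain ⟨q, hq⟩ := key k l (Or.inl hst)
      exact ⟨q, by linarith⟩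
    · rw [y0, y1] at hst
      have h1 := key k l (Or.inr (Or.inl hst))
      rw [hdc k l h1] at hst
      exact absurd hst (hne _)
    · rw [y1, y0] at hst
      have h1 := key k l (Or.inr (Or.inr (Or.inl hst)))
      rw [hdc k l h1] at hst
      exact absurd hst.symm (hne _)
    · rw [y1, y1] at hst
      obtain ⟨q, hq⟩ := key k l (Or.inr (Or.inr (Or.inr hst)))
      exact ⟨q, by linarith⟩
  · intro v
    have hv : v ∈ blk σ C 0 c := by
      rw [hU]
      exact Finset.mem_univ v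
    obtain ⟨k, -, -, h | h⟩ := hC.exists_index hv 0
    · exact ⟨2 * k, by rw [y0, h]⟩
    · exact ⟨2 * k + 1, by rw [y1, h]⟩
  · intro k
    rw [y0, y1]
    exact hRσ _
  · intro k
    rw [y1, y2]
    exact hC.adj k

/-- the same in all universes -/
theorem seq1 (V : Type u) [Fintype V] (R B : SimpleGraph V) (m : ℕ) (hm : 1 ≤ m)
    (hcard : Fintype.card V = 2 * m) (hR : ∀ v, m ≤ (R.neighborSet v).ncard)
    (hB : ∀ v, m ≤ (B.neighborSet v).ncard) :
    ∃ (σ : V → V) (y : ℤ → V), (∀ v, σ (σ v) = v) ∧ (∀ k, σ (y (2 * k)) = y (2 * k + 1)) ∧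
      (∀ t, y (t + 2 * m) = y t) ∧ (∀ s t, y s = y t → (2 * m : ℤ) ∣ s - t) ∧
      (∀ v, ∃ t, y t = v) ∧
      (∀ k, R.Adj (y (2 * k)) (y (2 * k + 1))) ∧ ∀ k, B.Adj (y (2 * k + 1)) (y (2 * k + 2)) := by
  let e : V ≃ Fin (Fintype.card V) := Fintype.equivFin V
  have hdeg : ∀ (H : SimpleGraph V), (∀ v, m ≤ (H.neighborSet v).ncard) →
      ∀ v, m ≤ ((H.comap e.symm).neighborSet v).ncard := by
    intro H h v
    refine (h (e.symm v)).trans (le_of_eq ?_)
    have h1 : (H.neighborSet (e.symm v)) = e.symm '' ((H.comap e.symm).neighborSet v) := by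
      ext w
      simp only [SimpleGraph.mem_neighborSet, Set.mem_image, SimpleGraph.comap_adj]
      constructor
      · intro h2
        exact ⟨e w, by rw [e.symm_apply_apply]; exact h2, e.symm_apply_apply w⟩
      · rintro ⟨z, hz, rfl⟩
        exact hz
    rw [h1, Set.ncard_image_of_injective _ e.symm.injective]
  obtain ⟨σ, y, h1, h2, h3, h4, h5, h6, h7⟩ := seq0 (Fin (Fintype.card V)) (R.comap e.symm) (B.comap e.symm) m hm
    (by rw [Fintype.card_fin]; exact hcard) (hdeg R hR) (hdeg B hB)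
  refine ⟨fun v => e.symm (σ (e v)), fun t => e.symm (y t), ?_, ?_, ?_, ?_, ?_, ?_, ?_⟩
  · intro v
    simp [h1]
  · intro k
    simp [h2]
  · intro t
    simp only
    rw [h3]
  · intro s t h
    exact h4 s t (e.symm.injective h)
  · intro v
    obtain ⟨t, ht⟩ := h5 (e v)
    exact ⟨t, by simp only; rw [ht, e.symm_apply_apply]⟩
  · exact h6
  · exact h7

theorem per_mod {X : Type*} (n : ℕ) (x : ℤ → X) (hx : ∀ t, x (t + n) = x t) (t : ℤ) : x (t % n) = x t := by
  have h1 : ∀ (k : ℕ) (t : ℤ), x (t + k * n) = x t := by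
    intro k
    induction k with
    | zero => intro t; simp
    | succ k ih =>
      intro t
      rw [show t + ((k + 1 : ℕ) : ℤ) * n = t + k * n + n by push_cast; ring, hx, ih]
  have h2 := Int.mul_ediv_add_emod t n
  rcases le_total 0 (t / (n : ℤ)) with h | h
  · obtain ⟨k, hk⟩ := Int.eq_ofNat_of_zero_le h
    rw [hk] at h2
    rw [← h1 k (t % n)]
    congr 1
    linarith [mul_comm (n : ℤ) k]
  · obtain ⟨k, hk⟩ := Int.eq_ofNat_of_zero_le (show 0 ≤ -(t / (n : ℤ)) by omega)
    rw [← h1 k t]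
    congr 1
    have : t / (n : ℤ) = -k := by omega
    rw [this] at h2
    linarith [mul_comm (n : ℤ) k]

/-- a periodic sequence as a function on `ZMod n` -/
theorem toZ {V C : Type*} (G : C → SimpleGraph V) (n : ℕ) (hn : 1 ≤ n) (x : ℤ → V) (col : ℤ → C)
    (hx : ∀ t, x (t + n) = x t) (hinj : ∀ s t, x s = x t → (n : ℤ) ∣ s - t)
    (hcol : ∀ t, col (t + n) = col t)
    (hadj : ∀ t, (G (col t)).Adj (x t) (x (t + 1)) ∧ col t ≠ col (t + 1)) :
    ∃ (X : ZMod n → V) (K : ZMod n → C), Function.Injective X ∧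
      (∀ t, (G (K t)).Adj (X t) (X (t + 1)) ∧ K t ≠ K (t + 1)) ∧
      ∀ t : ZMod n, X t = x (t.val : ℤ) ∧ K t = col (t.val : ℤ) := by
  have : NeZero n := ⟨by omega⟩
  have hval : ∀ t : ZMod n, (((t + 1).val : ℕ) : ℤ) = ((t.val : ℤ) + 1) % n := by
    intro t
    rw [ZMod.val_add, ZMod.val_one_eq_one_mod]
    push_cast
    rw [Int.add_emod_emod]
  refine ⟨fun t => x (t.val : ℤ), fun t => col (t.val : ℤ), ?_, ?_, fun t => ⟨rfl, rfl⟩⟩
  · intro s t hst
    have h1 := hinj _ _ hst
    have h2 := ZMod.val_lt s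
    have h3 := ZMod.val_lt t
    apply ZMod.val_injective n
    obtain ⟨q, hq⟩ := h1
    have h4 : q = 0 := by
      by_contra hq0
      have h5 : (n : ℤ) ≤ |((s.val : ℤ) - t.val)| := by
        rw [hq, abs_mul]
        have h6 : 1 ≤ |q| := Int.one_le_abs hq0
        have h7 : |(n : ℤ)| = n := abs_of_nonneg (by positivity)
        rw [h7]
        nlinarith
      rcases abs_cases ((s.val : ℤ) - t.val) with h | h <;> omega
    rw [h4, mul_zero] at hq
    omega
  · intro t
    simp only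
    rw [hval, per_mod n x hx, per_mod n col hcol]
    exact hadj _

/-- the alternating colours -/
def alt {C : Type*} (i j : C) (t : ℤ) : C := if t % 2 = 0 then i else j

theorem alt_or {C : Type*} (i j : C) (t : ℤ) : alt i j t = i ∨ alt i j t = j := by
  unfold alt
  split_ifs
  · exact Or.inl rfl
  · exact Or.inr rfl

theorem alt_ne {C : Type*} (i j : C) (hij : i ≠ j) (t : ℤ) : alt i j t ≠ alt i j (t + 1) := by
  unfold alt
  rcases Int.even_or_odd' t with ⟨k, rfl | rfl⟩
  · rw [if_pos (by omega), if_neg (by omega)]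
    exact hij
  · rw [if_neg (by omega), if_pos (by omega)]
    exact hij.symm

theorem alt_adj {V C : Type*} (G : C → SimpleGraph V) (i j : C) (y : ℤ → V)
    (h1 : ∀ k, (G i).Adj (y (2 * k)) (y (2 * k + 1)))
    (h2 : ∀ k, (G j).Adj (y (2 * k + 1)) (y (2 * k + 2))) (t : ℤ) :
    (G (alt i j t)).Adj (y t) (y (t + 1)) := by
  unfold alt
  rcases Int.even_or_odd' t with ⟨k, rfl | rfl⟩
  · rw [if_pos (by omega)]
    exact h1 k
  · rw [if_neg (by omega), show 2 * k + 1 + 1 = 2 * k + 2 by ring]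
    exact h2 k

/-- even number of vertices -/
theorem cyc_even {V : Type u} {C : Type*} [Fintype V] (G : C → SimpleGraph V) (m : ℕ) (hm : 1 ≤ m)
    (hcard : Fintype.card V = 2 * m) (i j : C) (hij : i ≠ j)
    (hi : ∀ v, m ≤ ((G i).neighborSet v).ncard) (hj : ∀ v, m ≤ ((G j).neighborSet v).ncard) :
    ∃ (X : ZMod (2 * m) → V) (K : ZMod (2 * m) → C), Function.Injective X ∧
      (∀ t, (G (K t)).Adj (X t) (X (t + 1)) ∧ K t ≠ K (t + 1)) ∧ ∀ t, K t = i ∨ K t = j := by
  obtain ⟨σ, y, -, -, h3, h4, -, h6, h7⟩ := seq1 V (G i) (G j) m hm hcard hi hj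
  obtain ⟨X, K, g1, g2, g3⟩ := toZ G (2 * m) (by omega) y (alt i j) (by push_cast; exact h3)
    (by push_cast; exact h4) (by
      intro t
      unfold alt
      push_cast
      rw [Int.add_mul_emod_self_left])
    (fun t => ⟨alt_adj G i j y h6 h7 t, alt_ne i j hij t⟩)
  exact ⟨X, K, g1, g2, fun t => by rw [(g3 t).2]; exact alt_or i j _⟩

theorem deg_sub {V : Type u} [Fintype V] (H : SimpleGraph V) (v₀ : V) (v : {v : V // v ≠ v₀}) :
    (H.neighborSet v.1).ncard ≤
      ((H.comap (Subtype.val : {v : V // v ≠ v₀} → V)).neighborSet v).ncard + 1 := by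
  have h1 : H.neighborSet v.1 ⊆
      insert v₀ (Subtype.val '' ((H.comap (Subtype.val : {v : V // v ≠ v₀} → V)).neighborSet v)) := by
    intro w hw
    by_cases h : w = v₀
    · exact Or.inl h
    · exact Or.inr ⟨⟨w, h⟩, hw, rfl⟩
  refine (Set.ncard_le_ncard h1 (Set.toFinite _)).trans ((Set.ncard_insert_le _ _).trans ?_)
  exact Nat.add_le_add_right (Set.ncard_image_le (Set.toFinite _)) 1

theorem card_sub {V : Type u} [Fintype V] [DecidableEq V] (v₀ : V) (m : ℕ) (hcard : Fintype.card V = 2 * m + 1) :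
    Fintype.card {v : V // v ≠ v₀} = 2 * m := by
  rw [Fintype.card_subtype_compl, Fintype.card_subtype_eq]
  omega

/-- odd number of vertices, cycle avoiding a vertex -/
theorem cyc_avoid {V : Type u} {C : Type*} [Fintype V] [DecidableEq V] (G : C → SimpleGraph V) (m : ℕ) (hm : 1 ≤ m)
    (hcard : Fintype.card V = 2 * m + 1) (i j : C) (hij : i ≠ j)
    (hi : ∀ v, m + 1 ≤ ((G i).neighborSet v).ncard) (hj : ∀ v, m + 1 ≤ ((G j).neighborSet v).ncard) (v₀ : V) :
    ∃ (X : ZMod (2 * m) → V) (K : ZMod (2 * m) → C), Function.Injective X ∧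
      (∀ t, (G (K t)).Adj (X t) (X (t + 1)) ∧ K t ≠ K (t + 1)) ∧ (∀ t, X t ≠ v₀) ∧ ∀ t, K t = i ∨ K t = j := by
  obtain ⟨X, K, h1, h2, h3⟩ := cyc_even (V := {v : V // v ≠ v₀})
    (fun c => (G c).comap (Subtype.val : {v : V // v ≠ v₀} → V)) m hm (card_sub v₀ m hcard) i j hij
    (fun v => by have := deg_sub (G i) v₀ v; have := hi v.1; omega)
    (fun v => by have := deg_sub (G j) v₀ v; have := hj v.1; omega)
  exact ⟨fun t => (X t).1, K, fun s t h => h1 (Subtype.ext h), h2, fun t => (X t).2, h3⟩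

theorem nbr_sub {V : Type u} [Fintype V] (H : SimpleGraph V) (v₀ : V) :
    (H.neighborSet v₀).ncard = {w : {v : V // v ≠ v₀} | H.Adj v₀ w.1}.ncard := by
  have h1 : H.neighborSet v₀ = Subtype.val '' {w : {v : V // v ≠ v₀} | H.Adj v₀ w.1} := by
    ext w
    constructor
    · intro hw
      exact ⟨⟨w, (SimpleGraph.Adj.ne' hw)⟩, hw, rfl⟩
    · rintro ⟨z, hz, rfl⟩
      exact hz
  rw [h1, Set.ncard_image_of_injective _ Subtype.val_injective]

/-- odd number of vertices, three colours: the vertex `v₀` is inserted in an alternating cycle -/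
theorem cyc_insert {V : Type u} {C : Type*} [Fintype V] [DecidableEq V] (G : C → SimpleGraph V) (m : ℕ) (hm : 1 ≤ m)
    (hcard : Fintype.card V = 2 * m + 1) (i j k : C) (hij : i ≠ j) (hik : i ≠ k) (hjk : j ≠ k)
    (hi : ∀ v, m + 1 ≤ ((G i).neighborSet v).ncard) (hj : ∀ v, m + 1 ≤ ((G j).neighborSet v).ncard) (v₀ : V)
    (hk : m ≤ ((G k).neighborSet v₀).ncard) :
    ∃ (X : ZMod (2 * m + 1) → V) (K : ZMod (2 * m + 1) → C), Function.Injective X ∧
      (∀ t, (G (K t)).Adj (X t) (X (t + 1)) ∧ K t ≠ K (t + 1)) ∧ X 0 = v₀ ∧ K 0 = k ∧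
      ∀ t, t ≠ 0 → K t = i ∨ K t = j := by
  obtain ⟨σ, y, hσ, hσy, h3, h4, h5, h6, h7⟩ := seq1 {v : V // v ≠ v₀}
    ((G i).comap Subtype.val) ((G j).comap Subtype.val) m hm (card_sub v₀ m hcard)
    (fun v => by have := deg_sub (G i) v₀ v; have := hi v.1; omega)
    (fun v => by have := deg_sub (G j) v₀ v; have := hj v.1; omega)
  -- the place where `v₀` is inserted
  obtain ⟨w, hw1, hw2⟩ : ∃ w : {v : V // v ≠ v₀}, (G i).Adj v₀ w.1 ∧ (G k).Adj v₀ (σ w).1 := by
    by_contra hcon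
    push Not at hcon
    have hinj : Function.Injective σ := fun a b h => by rw [← hσ a, h, hσ]
    have e1 := Set.ncard_image_of_injective {w : {v : V // v ≠ v₀} | (G i).Adj v₀ w.1} hinj
    have e2 : Disjoint (σ '' {w : {v : V // v ≠ v₀} | (G i).Adj v₀ w.1}) {w : {v : V // v ≠ v₀} | (G k).Adj v₀ w.1} := by
      rw [Set.disjoint_left]
      rintro _ ⟨w, hw, rfl⟩ h
      exact hcon w hw h
    have e3 := Set.ncard_union_eq e2
    have e4 : (σ '' {w : {v : V // v ≠ v₀} | (G i).Adj v₀ w.1} ∪ {w : {v : V // v ≠ v₀} | (G k).Adj v₀ w.1}).ncard ≤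
        Fintype.card {v : V // v ≠ v₀} := by
      rw [← Nat.card_eq_fintype_card, ← Set.ncard_univ]
      exact Set.ncard_le_ncard (Set.subset_univ _)
    rw [card_sub v₀ m hcard, e3, e1, ← nbr_sub, ← nbr_sub] at e4
    have := hi v₀
    omega
  obtain ⟨z, z0, z1, z2, z3, z4, z5⟩ : ∃ z : ℤ → {v : V // v ≠ v₀}, z 0 = w ∧ z 1 = σ w ∧
      (∀ t, z (t + 2 * m) = z t) ∧ (∀ s t, z s = z t → (2 * m : ℤ) ∣ s - t) ∧
      (∀ q, (G i).Adj (z (2 * q)).1 (z (2 * q + 1)).1) ∧
      ∀ q, (G j).Adj (z (2 * q + 1)).1 (z (2 * q + 2)).1 := by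
    obtain ⟨r, rfl⟩ := h5 w
    rcases Int.even_or_odd' r with ⟨q, rfl | rfl⟩
    · refine ⟨fun t => y (t + 2 * q), ?_, ?_, ?_, ?_, ?_, ?_⟩
      · simp
      · simp only
        rw [hσy, add_comm]
      · intro t
        simp only
        rw [← h3 (t + 2 * q)]
        congr 1
        ring
      · intro s t h
        have := h4 _ _ h
        rwa [show s + 2 * q - (t + 2 * q) = s - t by ring] at this
      · intro p
        have := h6 (p + q)
        simp only
        rw [show 2 * p + 2 * q = 2 * (p + q) by ring, show 2 * p + 1 + 2 * q = 2 * (p + q) + 1 by ring]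
        exact this
      · intro p
        have := h7 (p + q)
        simp only
        rw [show 2 * p + 1 + 2 * q = 2 * (p + q) + 1 by ring, show 2 * p + 2 + 2 * q = 2 * (p + q) + 2 by ring]
        exact this
    · refine ⟨fun t => y (2 * q + 1 - t), ?_, ?_, ?_, ?_, ?_, ?_⟩
      · simp
      · simp only
        rw [← hσy, hσ]
        congr 1
        ring
      · intro t
        simp only
        rw [← h3 (2 * q + 1 - (t + 2 * m))]
        congr 1
        ring
      · intro s t h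
        have := h4 _ _ h
        rw [show 2 * q + 1 - s - (2 * q + 1 - t) = -(s - t) by ring, Int.dvd_neg] at this
        exact this
      · intro p
        have := h6 (q - p)
        simp only
        rw [show 2 * q + 1 - 2 * p = 2 * (q - p) + 1 by ring, show 2 * q + 1 - (2 * p + 1) = 2 * (q - p) by ring]
        exact this.symm
      · intro p
        have := h7 (q - p - 1)
        simp only
        rw [show 2 * q + 1 - (2 * p + 1) = 2 * (q - p - 1) + 2 by ring,
          show 2 * q + 1 - (2 * p + 2) = 2 * (q - p - 1) + 1 by ring]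
        exact this.symm
  have hn0 : (0 : ℤ) < ((2 * m + 1 : ℕ) : ℤ) := by positivity
  let x : ℤ → V := fun t => if t % ((2 * m + 1 : ℕ) : ℤ) = 0 then v₀ else (z (t % ((2 * m + 1 : ℕ) : ℤ))).1
  let col : ℤ → C := fun t => if t % ((2 * m + 1 : ℕ) : ℤ) = 0 then k else alt i j (t % ((2 * m + 1 : ℕ) : ℤ))
  have hx : ∀ t, x (t + ((2 * m + 1 : ℕ) : ℤ)) = x t := by
    intro t
    simp only [x, Int.add_emod_right]
  have hcol : ∀ t, col (t + ((2 * m + 1 : ℕ) : ℤ)) = col t := by
    intro t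
    simp only [col, Int.add_emod_right]
  have hinj : ∀ s t, x s = x t → ((2 * m + 1 : ℕ) : ℤ) ∣ s - t := by
    intro s t h
    have b1 := Int.emod_nonneg s (ne_of_gt hn0)
    have b2 := Int.emod_lt_of_pos s hn0
    have b3 := Int.emod_nonneg t (ne_of_gt hn0)
    have b4 := Int.emod_lt_of_pos t hn0
    have fin : s % ((2 * m + 1 : ℕ) : ℤ) = t % ((2 * m + 1 : ℕ) : ℤ) → ((2 * m + 1 : ℕ) : ℤ) ∣ s - t := by
      intro h
      exact Int.ModEq.dvd (Eq.symm h)
    simp only [x] at h
    split_ifs at h with c1 c2 c2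
    · exact fin (c1.trans c2.symm)
    · exact absurd h.symm (z _).2
    · exact absurd h (z _).2
    · apply fin
      obtain ⟨q, hq⟩ := z3 _ _ (Subtype.ext h)
      have hq0 : q = 0 := by
        by_contra hq0
        have g1 : (2 * m : ℤ) ≤ |(s % ((2 * m + 1 : ℕ) : ℤ) - t % ((2 * m + 1 : ℕ) : ℤ))| := by
          rw [hq, abs_mul]
          have g2 : 1 ≤ |q| := Int.one_le_abs hq0
          have g3 : |(2 * m : ℤ)| = 2 * m := abs_of_nonneg (by positivity)
          rw [g3]
          nlinarith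
        push_cast at *
        rcases abs_cases (s % (2 * m + 1 : ℤ) - t % (2 * m + 1 : ℤ)) with g | g <;> omega
      rw [hq0, mul_zero] at hq
      omega
  obtain ⟨X, K, g1, g2, g3⟩ := toZ G (2 * m + 1) (by omega) x col hx hinj hcol (by
    intro t
    have b1 := Int.emod_nonneg t (ne_of_gt hn0)
    have b2 := Int.emod_lt_of_pos t hn0
    have e1 : (t + 1) % ((2 * m + 1 : ℕ) : ℤ) = (t % ((2 * m + 1 : ℕ) : ℤ) + 1) % ((2 * m + 1 : ℕ) : ℤ) := by
      rw [Int.emod_add_emod]
    simp only [x, col]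
    rw [e1]
    generalize t % ((2 * m + 1 : ℕ) : ℤ) = ρ at b1 b2
    push_cast at b2 ⊢
    by_cases c0 : ρ = 0
    · subst c0
      rw [zero_add, Int.emod_eq_of_lt (a := 1) (by norm_num) (by omega), if_pos rfl, if_pos rfl,
        if_neg (by norm_num), if_neg (by norm_num)]
      constructor
      · rw [z1]
        exact hw2
      · unfold alt
        rw [if_neg (by norm_num)]
        exact hjk.symm
    · by_cases c1 : ρ = 2 * m
      · subst c1
        rw [Int.emod_self, if_neg c0, if_neg c0, if_pos rfl, if_pos rfl]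
        have e2 : alt i j (2 * m : ℤ) = i := by
          unfold alt
          rw [if_pos (by omega)]
        rw [e2]
        refine ⟨?_, hik⟩
        have e3 : z (2 * m) = w := by
          rw [← z0, ← z2 0, zero_add]
        rw [e3]
        exact hw1.symm
      · rw [Int.emod_eq_of_lt (a := ρ + 1) (by omega) (by omega), if_neg c0, if_neg c0,
          if_neg (by omega), if_neg (by omega)]
        exact ⟨alt_adj G i j (fun t => (z t).1) z4 z5 ρ, alt_ne i j hij ρ⟩)
  refine ⟨X, K, g1, g2, ?_, ?_, ?_⟩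
  · rw [(g3 0).1, ZMod.val_zero]
    simp [x]
  · rw [(g3 0).2, ZMod.val_zero]
    simp [col]
  · intro t ht
    rw [(g3 t).2]
    have : NeZero (2 * m + 1) := ⟨by omega⟩
    have h8 := ZMod.val_lt t
    have h9 : t.val ≠ 0 := fun h => ht ((ZMod.val_eq_zero t).1 h)
    simp only [col]
    rw [Int.emod_eq_of_lt (by positivity) (by exact_mod_cast h8), if_neg (by exact_mod_cast h9)]
    exact alt_or i j _

end Pool.Agent.Lib_MP_c83083_ins
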